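import Pool.Agent.W662.SK.StmtsB

/-! # `S_B1`: the ideal and the group algebra are closed under products and adjoints -/

set_option autoImplicit false

open scoped InnerProductSpace ENNReal
open Filter Topology

namespace Pool.Agent.W293.SK

open Pool.Agent.W662.SK

section gen

variable {A B C : Type*} [NormedAddCommGroup A] [NormedSpace ℂ A] [NormedAddCommGroup B]
  [NormedSpace ℂ B] [NormedAddCommGroup C] [NormedSpace ℂ C]

/-- a continuous bilinear map and closed spans -/
theorem bil_cs (f : A →ₗ[ℂ] B →ₗ[ℂ] C) (hf : Continuous fun p : A × B => f p.1 p.2)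
    (S : Set A) (T : Set B) (R : Submodule ℂ C) (hR : IsClosed (R : Set C))
    (h : ∀ s ∈ S, ∀ t ∈ T, f s t ∈ R) :
    ∀ a ∈ (Submodule.span ℂ S).topologicalClosure,
    ∀ b ∈ (Submodule.span ℂ T).topologicalClosure, f a b ∈ R := by
  have h1 : ∀ s ∈ S, ∀ b ∈ Submodule.span ℂ T, f s b ∈ R := by
    intro s hs b hb
    induction hb using Submodule.span_induction with
    | mem t ht => exact h s hs t ht
    | zero => rw [map_zero]; exact R.zero_mem
    | add x y _ _ hx hy => rw [map_add]; exact R.add_mem hx hy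
    | smul c x _ hx => rw [map_smul]; exact R.smul_mem c hx
  have h2 : ∀ a ∈ Submodule.span ℂ S, ∀ b ∈ Submodule.span ℂ T, f a b ∈ R := by
    intro a ha b hb
    induction ha using Submodule.span_induction with
    | mem s hs => exact h1 s hs b hb
    | zero => rw [map_zero, LinearMap.zero_apply]; exact R.zero_mem
    | add x y _ _ hx hy => rw [map_add, LinearMap.add_apply]; exact R.add_mem hx hy
    | smul c x _ hx => rw [map_smul, LinearMap.smul_apply]; exact R.smul_mem c hx
  intro a ha b hb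
  have h3 : f a b ∈ closure (R : Set C) :=
    map_mem_closure₂ (f := fun a b => f a b) hf ha hb h2
  rwa [hR.closure_eq] at h3

theorem star_cs {A : Type*} [NormedRing A] [NormedAlgebra ℂ A] [StarRing A] [StarModule ℂ A]
    [ContinuousStar A] (S : Set A) (R : Submodule ℂ A) (hR : IsClosed (R : Set A))
    (h : ∀ s ∈ S, star s ∈ R) :
    ∀ a ∈ (Submodule.span ℂ S).topologicalClosure, star a ∈ R := by
  have h1 : ∀ a ∈ Submodule.span ℂ S, star a ∈ R := by
    intro a ha
    induction ha using Submodule.span_induction with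
    | mem t ht => exact h t ht
    | zero => rw [star_zero]; exact R.zero_mem
    | add x y _ _ hx hy => rw [star_add]; exact R.add_mem hx hy
    | smul c x _ hx => rw [star_smul]; exact R.smul_mem _ hx
  intro a ha
  have h3 : star a ∈ closure (R : Set A) := map_mem_closure continuous_star ha h1
  rwa [hR.closure_eq] at h3

end gen

section alg

variable {Γ K : Type} [Group Γ] [NormedAddCommGroup K] [InnerProductSpace ℂ K]

theorem Gop_mul (x y x' y' : K) (g g' : Γ) :
    Gop x y g * Gop x' y' g' = ⟪y, x'⟫_ℂ • Gop x y' (g * g') := by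
  refine ContinuousLinearMap.ext fun f => l2_ext fun h => ?_
  change Gop x y g (Gop x' y' g' f) h = ⟪y, x'⟫_ℂ • Gop x y' (g * g') f h
  rw [Gop_apply, Gop_apply, Gop_apply, inner_smul_right, smul_smul, mul_inv_rev, mul_assoc,
    mul_comm]

theorem Gop_star [CompleteSpace K] (x y : K) (g : Γ) : star (Gop x y g) = Gop y x g⁻¹ := by
  have h1 : Gop x y g = lft Γ (InnerProductSpace.rankOne ℂ x y) * cl (Lam K g) := rfl
  rw [h1, star_mul, star_cl, ContinuousLinearMap.star_eq_adjoint, adjoint_lft,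
    InnerProductSpace.adjoint_rankOne, ← Lam_inv]
  exact (lft_Lam (InnerProductSpace.rankOne ℂ y x) g⁻¹).symm

end alg

theorem b1 : S_B1 := by
  intro Γ K _ _ _ _
  have hmul : Continuous fun p : (L2 Γ K →L[ℂ] L2 Γ K) × (L2 Γ K →L[ℂ] L2 Γ K) =>
      (LinearMap.mul ℂ (L2 Γ K →L[ℂ] L2 Γ K)) p.1 p.2 := continuous_mul
  refine ⟨?_, ?_, ?_, ?_, ?_⟩
  · apply bil_cs (LinearMap.mul ℂ (L2 Γ K →L[ℂ] L2 Γ K)) hmul _ _ (Jd Γ K)
      (Submodule.isClosed_topologicalClosure _)
    rintro _ ⟨x, y, g, rfl⟩ _ ⟨x', y', g', rfl⟩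
    rw [LinearMap.mul_apply', Gop_mul]
    exact Submodule.smul_mem _ _ (Gop_mem _ _ _)
  · apply star_cs _ (Jd Γ K) (Submodule.isClosed_topologicalClosure _)
    rintro _ ⟨x, y, g, rfl⟩
    rw [Gop_star]
    exact Gop_mem _ _ _
  · apply bil_cs (LinearMap.mul ℂ (L2 Γ K →L[ℂ] L2 Γ K)) hmul _ _ (Cr Γ K)
      (Submodule.isClosed_topologicalClosure _)
    rintro _ ⟨g, rfl⟩ _ ⟨g', rfl⟩
    simp only
    rw [LinearMap.mul_apply', ← cl_mul, ← Lam_mul]
    exact Lam_mem _
  · apply star_cs _ (Cr Γ K) (Submodule.isClosed_topologicalClosure _)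
    rintro _ ⟨g, rfl⟩
    simp only
    rw [star_cl, ← Lam_inv]
    exact Lam_mem _
  · have h := Lam_mem (K := K) (1 : Γ)
    rw [Lam_one, cl_one] at h
    exact h

end Pool.Agent.W293.SK
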