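import Pool.Agent.W293.SK.B1

/-! # `S_B2`: the ideal property -/

set_option autoImplicit false

open scoped InnerProductSpace ENNReal
open Filter Topology

namespace Pool.Agent.W293.SK

open Pool.Agent.W662.SK

theorem sg_Gop {Γ K : Type} [Group Γ] [NormedAddCommGroup K] [InnerProductSpace ℂ K]
    (π : Γ →* (K ≃ₗᵢ[ℂ] K)) (g h : Γ) (x y : K) :
    sg π (cl (Lam K g)) * Gop x y h = Gop (π g x) y (g * h) := by
  rw [sg_Lam]
  refine ContinuousLinearMap.ext fun f => l2_ext fun k => ?_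
  change π g (Gop x y h f (g⁻¹ * k)) = Gop (π g x) y (g * h) f k
  rw [Gop_apply, Gop_apply, map_smul, mul_inv_rev, mul_assoc]

theorem b2 (h0 : S_B0) (h1 : S_B1) : S_B2 := by
  intro Γ K _ _ _ _ π
  obtain ⟨hmul, hstar, hadd, hsmul, hone, hnorm⟩ := h0 Γ K π
  obtain ⟨hJJ, hJs, hCC, hCs, hC1⟩ := h1 Γ K
  let s : (L2 Γ K →L[ℂ] L2 Γ K) →ₗ[ℂ] (L2 Γ K →L[ℂ] L2 Γ K) :=
    { toFun := sg π, map_add' := hadd, map_smul' := hsmul }
  have hs : Continuous s := by
    have : Continuous fun c : L2 Γ K →L[ℂ] L2 Γ K => cl (Wop π) * (c * cl (Wop π).symm) :=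
      continuous_const.mul (continuous_id.mul continuous_const)
    exact this
  have hleft : ∀ c ∈ Cr Γ K, ∀ j ∈ Jd Γ K, sg π c * j ∈ Jd Γ K := by
    apply bil_cs ((LinearMap.mul ℂ (L2 Γ K →L[ℂ] L2 Γ K)).comp s) _ _ _ (Jd Γ K)
      (Submodule.isClosed_topologicalClosure _)
    · rintro _ ⟨g, rfl⟩ _ ⟨x, y, h, rfl⟩
      change sg π (cl (Lam K g)) * Gop x y h ∈ Jd Γ K
      rw [sg_Gop]
      exact Gop_mem _ _ _
    · exact (hs.comp continuous_fst).mul continuous_snd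
  intro c hc j hj
  refine ⟨hleft c hc j hj, ?_⟩
  have h2 : j * sg π c = star (sg π (star c) * star j) := by
    rw [star_mul, star_star, hstar, star_star]
  rw [h2]
  exact hJs _ (hleft _ (hCs c hc) _ (hJs j hj))

end Pool.Agent.W293.SK
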